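import Mathlib
import Pool.Agent.N166.NH.Core

/-!
# The numerical Hodge standard conjecture for products with almost all constant abelian varieties

Let `g i` (`i` in a finite set `I`) be positive integers, `r` an integer smaller than all the `g i`
and `E` a number field.  For a prime power `q` let `S i` be the set of the characteristic
polynomials of Frobenius of the ordinary abelian varieties of dimension `g i` over the field with `q`
elements, or of all abelian varieties of dimension `g i`, or any set in between.  By Weil, Honda and
Tate its elements correspond to the isogeny classes, the first set contains `ordinaryPolynomials q
(g i)`, and the second one is contained in `weilPolynomials q (g i)`.

For all families `f i` in `S i` with the exception of a proportion `O (q ^ (-1 / 6) log q)`, the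
constant depending only on `g` and `E`, the following holds for all `s > 0` and for **every
algebraically closed field `k`** of characteristic `p`, for instance an algebraic closure of the
function field of a variety over a finite field. Let `A` be an abelian variety over the field with
`q ^ s` elements, isogenous to a product of powers of abelian varieties coming from the field with
`q` elements with characteristic polynomials `f i`, with the base change to `k` again denoted by `A`.
Let `B` be **any** abelian variety (or any smooth projective variety) over `k`, in general not
defined over a finite field, but over a finitely generated field `K` in `k`, with good reduction at
a place `v` of `K` with residue field of `q ^ s` elements, such that the eigenvalues of a Frobenius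
element at `v` on the cohomology of `B` and their conjugates generate a group of rank at most `r`
modulo the group of the numbers with a power in `E`. There is no condition on the Newton polygon of
`B`, on its endomorphisms or on its algebraic cycles.

Then the classes of algebraic cycles on `A` are combinations of intersections of divisors, and the
classes of cycles on `A × B` are combinations of products of such classes with classes on `B`;
homological and numerical equivalence coincide on `A × B` if and only if they coincide on `B` (for
`k` the algebraic closure of a finite field and suitable `ℓ` they do coincide by the theorem of
Clozel, if `B` is an abelian variety). In this case **the numerical Hodge standard conjecture holds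
for `A × B` if and only if it holds for `A` and for `B`**; and for `A` it is a theorem of Milne, since
all classes on `A` are combinations of intersections of divisors.

For instance the numerical Hodge standard conjecture is true for `A × B`, of arbitrarily large
dimension, for all abelian varieties `B` over `k` of small Frobenius rank which have dimension at
most three (the conjecture is known for divisors), and for those of dimension four over the closure
of a finite field (Ancona).

In the Lean statement `φB` and `φ` are the actions of the Frobenius element on the cohomology of `B`
and of `A × B`. Cycles are defined over finite extensions of `K`, so that a power `φ ^ m` multiplies
the class of a cycle of codimension `i` by `q ^ (s m i)` (`IsFrobeniusElement`).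

The idea of the proof: by a sieve (helper521) almost all families are such that each pair `α`,
`q / α` of roots can be exchanged by a Galois automorphism which fixes all the other roots and the
elements of `E`. It follows (helper484) that no product of roots of the `f i` without such pairs is
the inverse of an eigenvalue of the Frobenius element on the cohomology of `B`, up to powers of `q`
and roots of unity. So the algebraic classes of `A × B` have the stated form. The positivity on the
product is obtained by means of a rational orthogonal basis of the space of algebraic classes of `A`.
-/

set_option autoImplicit false

universe u v

namespace Pool.Agent.Results.MP_c0b458_ag.ConstantAbelianFactors

open Polynomial Pool.Agent.N166.NH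

/-- `weilPolynomials q g` is the set of monic integral polynomials of degree `2 g` with constant term
`q ^ g` and all roots of absolute value `√q`; `ordinaryPolynomials q g` is the subset of those
whose coefficient of index `g` is prime to `q`. -/
theorem result {I : Type} [Fintype I] (g : I → ℕ) (r : ℕ) (hr : ∀ i, r < g i)
    (E : IntermediateField ℚ ℂ) [FiniteDimensional ℚ E] :
    ∃ C : ℝ, ∀ q : ℕ, IsPrimePow q → ∀ S : I → Set ℤ[X],
      (∀ i, ordinaryPolynomials q (g i) ⊆ S i ∧ S i ⊆ weilPolynomials q (g i)) →
      (∀ i, (S i).Finite ∧ (S i).Nonempty) ∧
      ({f : I → ℤ[X] | (∀ i, f i ∈ S i) ∧ ¬ NumHodgeForRankOver.{u, v} E q r f}.ncard : ℝ) ≤
        C * (Real.log q * (q : ℝ) ^ (-(1 / 6) : ℝ)) * ∏ i, ((S i).ncard : ℝ) :=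
  main g r hr E

end Pool.Agent.Results.MP_c0b458_ag.ConstantAbelianFactors
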