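import Pool.Agent.R940.ZFin

/-!
# Bounded generation of the Tate classes on the products of an arbitrary variety with powers

Let `X` and `Z` be smooth projective varieties over a finite field (over an algebraic closure `k` of the
field with `p` elements; all classes are considered over all finite fields), `b` the total Betti number of
`X`, and `D` a common denominator of the slopes of the Newton polygons of `X` (`D = e * b!` always is one,
`q = p ^ e`). Put

    `N = mixedBound b D (dim Z) = 2 b (4 D b ^ 2 + 4 D dim Z + 1) ^ b`.

This depends only on `b`, `D` and `dim Z`: neither on the Betti numbers of `Z`, nor on the slopes of `Z`,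
nor on `p`.

Theorem. (1) Every generalised Tate class (in every codimension) on `Z × X ^ (n + 1)` is a polynomial in
pull-backs of generalised Tate classes on `Z × X ^ (m + 1)`, `m + 1 ≤ N`, along the projections to `Z` and
`m + 1` of the factors `X`.

(2) If the formula of Tate (order of the pole of the zeta function = rank of the group of cycles modulo
numerical equivalence, in all codimensions) holds for the single variety `Z × X ^ N`, then it holds for
`Z × X ^ n`, for all `n`.

(3) If the Frobenius endomorphism of `X` is semisimple, then (1) and (2) hold for the Tate classes and the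
Tate conjecture itself; the Frobenius endomorphism of `Z` may be arbitrary.

In terms of the page: for smooth projective `Y` the formula of Tate in codimension `i` over all finite
fields is equivalent to the surjectivity of the cycle class map `c^i` (first half of Q1), the
semisimplicity of the eigenvalue `1` (Q2), both over all finite extensions, and the equality of
homological and numerical equivalence in codimension `i`.  So for the infinitely many varieties
`Y = Z × X ^ n`, of unbounded dimension, Q2 and the first half of Q1 (with homological = numerical
equivalence) reduce to one of them; under (3) the first half of Q1 alone reduces to one of them.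

For a point `Z` this is `MP_af4e75_ag.BoundedGeneration`.  (Theorem of the starting library, `R940.ZFin`,
not handed in there; first written up by helper635.)
-/

set_option autoImplicit false

open CategoryTheory AlgebraicGeometry

universe u v

namespace Pool.Agent.Results.MP_81632f_ag.ProductsWithPowers

open Pool.Agent.H914 Pool.Agent.W534 Pool.Agent.Y163 Pool.Agent.R940 VarClass Obj WeilCohomology
open Module

/-- Bounded generation of the Tate classes on the products `Z × X ^ n`, and the reduction of the
conjectures of Tate for all these products to a single one. -/
theorem result {k : Type u} [Field k] {𝒱 : VarClass k} {ops : CycleOps 𝒱}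
    {W : WeilCohomology.{u, v} ops} [IsAlgClosed W.K] {p : ℕ} [Fact p.Prime]
    (Φ : FrobSystem W p) (σ : W.K →+* ℂ) (hRH : ∀ Y, RiemannHyp Φ σ Y)
    (X Z : 𝒱.Obj) (hX : HasIntegralPolys Φ σ X) (hZ : HasIntegralPolys Φ σ Z)
    (E : X.Cycles) (hE : X.IsCyc 1 E) (hbig : Big ops X E) :
    IsSlopeDenominator Φ σ X (Φ.e X * (finrank W.K (W.H X)).factorial) ∧
    ∀ D, IsSlopeDenominator Φ σ X D → ∀ N, N = mixedBound (finrank W.K (W.H X)) D Z.dim →
      (∀ n c, IsGenClass Φ (Z.prod (pw X n)) c →
          c ∈ Algebra.adjoin W.K {c | IsPulledFrom W Z X (IsGenClass Φ) N n c}) ∧
      ((∀ j, j ≤ (Z.prod (pw X (N - 1))).dim → PoleFormula Φ σ (Z.prod (pw X (N - 1))) j) →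
        ∀ n j, j ≤ (Z.prod (pw X n)).dim → PoleFormula Φ σ (Z.prod (pw X n)) j) ∧
      (FrobIsSemisimple Φ X →
        (∀ n c, IsTateCls Φ (Z.prod (pw X n)) c →
          c ∈ Algebra.adjoin W.K {c | IsPulledFrom W Z X (IsTateCls Φ) N n c}) ∧
        ((∀ j, TateIn Φ (Z.prod (pw X (N - 1))) j) →
          ∀ n j, TateIn Φ (Z.prod (pw X n)) j)) := by
  refine ⟨slopeDenominator (hRH X) hX, fun D hD N hN => ?_⟩
  subst hN
  exact zmain hRH hX hE hbig hZ hD

end Pool.Agent.Results.MP_81632f_ag.ProductsWithPowers
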